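import Mathlib

/-! Irrationality of `log 2`, from the analytic part of the Lindemann-Weierstrass theorem. -/

namespace Pool.Agent.Lib_MP_780098_nt

open Polynomial

lemma exists_large_prime_small (c : ℝ) (B : ℝ) (N : ℕ) :
    ∃ p : ℕ, N < p ∧ p.Prime ∧ B ^ p * (c ^ p / ((p - 1).factorial : ℝ)) < 1 := by
  have h1 : Filter.Tendsto (fun n : ℕ => (B * c) ^ n / (n.factorial : ℝ)) Filter.atTop
      (nhds 0) := FloorSemiring.tendsto_pow_div_factorial_atTop _
  have h2 : Filter.Tendsto (fun n : ℕ => (B * c) * ((B * c) ^ n / (n.factorial : ℝ)))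
      Filter.atTop (nhds ((B * c) * 0)) := h1.const_mul _
  rw [mul_zero] at h2
  have h3 := (h2.eventually (gt_mem_nhds (show (0 : ℝ) < 1 by norm_num)))
  rw [Filter.eventually_atTop] at h3
  obtain ⟨M, hM⟩ := h3
  obtain ⟨p, hp1, hp⟩ := Nat.exists_infinite_primes (N + M + 2)
  refine ⟨p, by omega, hp, ?_⟩
  have h4 := hM (p - 1) (by omega)
  have hp1 : p = (p - 1) + 1 := by omega
  calc B ^ p * (c ^ p / ((p - 1).factorial : ℝ))
      = (B * c) ^ p / ((p - 1).factorial : ℝ) := by rw [mul_pow]; ring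
    _ = (B * c) * ((B * c) ^ (p - 1) / ((p - 1).factorial : ℝ)) := by
        conv_lhs => rw [hp1, pow_succ]
        simp only [Nat.add_sub_cancel]
        ring
    _ < 1 := h4

lemma int_pow_mul_eval (g : ℤ[X]) (a : ℤ) (b : ℕ) (hb : b ≠ 0) (D : ℕ) (hD : g.natDegree ≤ D) :
    ∃ K : ℤ, (b : ℂ) ^ D * aeval ((a : ℂ) / b) g = K := by
  have hbC : (b : ℂ) ≠ 0 := by exact_mod_cast hb
  refine ⟨∑ i ∈ Finset.range (D + 1), g.coeff i * a ^ i * (b : ℤ) ^ (D - i), ?_⟩
  rw [aeval_eq_sum_range' (lt_of_le_of_lt hD (Nat.lt_succ_self D)), Finset.mul_sum]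
  push_cast
  refine Finset.sum_congr rfl (fun i hi => ?_)
  have hi' : i ≤ D := by
    have := Finset.mem_range.mp hi
    omega
  have hpow : (b : ℂ) ^ D = (b : ℂ) ^ i * (b : ℂ) ^ (D - i) := by
    rw [← pow_add]; congr 1; omega
  rw [div_pow, hpow, zsmul_eq_mul]
  field_simp

theorem irrational_log_two : Irrational (Real.log 2) := by
  rintro ⟨r, hr⟩
  have hlog : 0 < Real.log 2 := Real.log_pos (by norm_num)
  have hrpos : 0 < r := by
    have : (0 : ℝ) < (r : ℝ) := by rw [hr]; exact hlog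
    exact_mod_cast this
  have hexp : Complex.exp ((r.num : ℂ) / (r.den : ℂ)) = 2 := by
    have h1 : ((r.num : ℂ) / (r.den : ℂ)) = ((Real.log 2 : ℝ) : ℂ) := by
      rw [← hr]
      have : ((r : ℝ) : ℂ) = ((r : ℚ) : ℂ) := by push_cast; rfl
      rw [this]
      conv_rhs => rw [← Rat.num_div_den r]
      push_cast
      rfl
    rw [h1, ← Complex.ofReal_exp, Real.exp_log (by norm_num)]
    norm_num
  set a : ℤ := r.num with hadef
  set b : ℕ := r.den with hbdef
  have hb : b ≠ 0 := r.den_nz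
  have ha : 0 < a := Rat.num_pos.mpr hrpos
  set f : ℤ[X] := C (b : ℤ) * X - C a with hf
  have hf0 : f.eval 0 ≠ 0 := by
    rw [hf]
    simp
    omega
  obtain ⟨c, hc⟩ := LindemannWeierstrass.exp_polynomial_approx f hf0
  obtain ⟨p, hpN, hpp, hsmall⟩ := exists_large_prime_small c (b : ℝ)
    ((eval 0 f).natAbs + 2 + b)
  obtain ⟨n, hn, gp, hdeg, hgp⟩ := hc p (by omega) hpp
  have hroot : ((a : ℂ) / b) ∈ f.aroots ℂ := by
    rw [mem_aroots]
    constructor
    · intro h0
      rw [h0] at hf0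
      simp at hf0
    · rw [hf]
      have hbC : (b : ℂ) ≠ 0 := by exact_mod_cast hb
      simp only [map_sub, map_mul, aeval_X, eq_intCast, Int.cast_natCast]
      field_simp
      simp [mul_comm]
  have hb1 := hgp hroot
  have hexp' : Complex.exp ((a : ℂ) / b) = 2 := hexp
  have hfdeg : f.natDegree ≤ 1 := by
    rw [hf]
    compute_degree
  have hdeg' : gp.natDegree ≤ p := by
    have : p * f.natDegree ≤ p * 1 := Nat.mul_le_mul_left _ hfdeg
    omega
  obtain ⟨K, hK⟩ := int_pow_mul_eval gp a b hb p hdeg'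
  have hkey : ‖((2 * n * (b : ℤ) ^ p - p * K : ℤ) : ℂ)‖ < 1 := by
    have h2 : ((2 * n * (b : ℤ) ^ p - p * K : ℤ) : ℂ)
        = (b : ℂ) ^ p * (n • Complex.exp ((a : ℂ) / b) - p • aeval ((a : ℂ) / b) gp) := by
      push_cast
      rw [← hK, hexp', zsmul_eq_mul, nsmul_eq_mul]
      ring
    rw [h2, norm_mul, norm_pow]
    have h3 : ‖(b : ℂ)‖ = (b : ℝ) := by simp
    rw [h3]
    refine lt_of_le_of_lt ?_ hsmall
    exact mul_le_mul_of_nonneg_left hb1 (by positivity)
  have hint : (2 * n * (b : ℤ) ^ p - p * K : ℤ) = 0 := by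
    rw [Complex.norm_intCast] at hkey
    have : |(2 * n * (b : ℤ) ^ p - p * K : ℤ)| < 1 := by exact_mod_cast hkey
    exact Int.abs_lt_one_iff.mp this
  have hdvd : (p : ℤ) ∣ 2 * n * (b : ℤ) ^ p := ⟨K, by linarith⟩
  have hpZ : Prime (p : ℤ) := Nat.prime_iff_prime_int.mp hpp
  rcases hpZ.dvd_or_dvd hdvd with h | h
  · rcases hpZ.dvd_or_dvd h with h | h
    · have := Int.le_of_dvd (by norm_num) h
      omega
    · exact hn h
  · have h5 := hpZ.dvd_of_dvd_pow h
    have := Int.le_of_dvd (by omega) h5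
    omega

theorem irrational_half_log_two : Irrational (Real.log 2 / 2) := by
  have := irrational_log_two.div_natCast (m := 2) (by norm_num)
  simpa using this

end Pool.Agent.Lib_MP_780098_nt
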