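import Mathlib

/-! One-sided rational approximation with an odd denominator. -/

namespace Pool.Agent.Lib_MP_780098_nt

/-- A pair of neighbouring fractions `n1/p1 < a < n2/p2` with `p2 ≤ p1` and with the lower one
closer in the sense of `p1 * a - n1 < n2 - p2 * a`. -/
def Good (a : ℝ) (p1 n1 p2 n2 : ℤ) : Prop :=
  n2 * p1 - n1 * p2 = 1 ∧ 0 < p2 ∧ p2 ≤ p1 ∧ 0 < (p1 : ℝ) * a - n1 ∧
    (p1 : ℝ) * a - n1 < n2 - p2 * a

lemma lin_ne {a : ℝ} (ha : Irrational a) {p : ℤ} (hp : p ≠ 0) (n : ℤ) :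
    (p : ℝ) * a - n ≠ 0 := by
  intro h
  have h1 : a = ((n : ℚ) / (p : ℚ) : ℚ) := by
    push_cast
    have : (p : ℝ) ≠ 0 := by exact_mod_cast hp
    field_simp
    linarith
  exact ha ⟨_, h1.symm⟩

lemma exists_floor {x y : ℝ} (hx : 0 < x) (hy : x < y) :
    ∃ b : ℤ, 1 ≤ b ∧ 0 ≤ y - b * x ∧ y - b * x < x := by
  refine ⟨⌊y / x⌋, ?_, ?_, ?_⟩
  · rw [Int.le_floor]
    push_cast
    rw [le_div_iff₀ hx]
    linarith
  · have h := Int.floor_le (y / x)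
    rw [le_div_iff₀ hx] at h
    linarith
  · have h := Int.lt_floor_add_one (y / x)
    rw [div_lt_iff₀ hx] at h
    linarith

lemma Good.step {a : ℝ} (ha : Irrational a) {p1 n1 p2 n2 : ℤ} (h : Good a p1 n1 p2 n2) :
    ∃ q1 m1 q2 m2 : ℤ, Good a q1 m1 q2 m2 ∧ p2 < q2 := by
  obtain ⟨hdet, hp2, hp, h1, h12⟩ := h
  obtain ⟨b, hb1, hb2, hb3⟩ := exists_floor h1 h12
  have hp1 : 0 < p1 := lt_of_lt_of_le hp2 hp
  set q2 : ℤ := p2 + b * p1 with hq2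
  set m2 : ℤ := n2 + b * n1 with hm2
  have hq2p : p2 < q2 := by
    have : 1 * p1 ≤ b * p1 := mul_le_mul_of_nonneg_right hb1 hp1.le
    rw [hq2]; linarith
  have hq2p1 : p1 < q2 := by
    have : 1 * p1 ≤ b * p1 := mul_le_mul_of_nonneg_right hb1 hp1.le
    rw [hq2]; linarith
  have hq2pos : 0 < q2 := lt_trans hp2 hq2p
  have he2 : (m2 : ℝ) - q2 * a = (n2 - p2 * a) - b * (p1 * a - n1) := by
    rw [hq2, hm2]; push_cast; ring
  have hne : (m2 : ℝ) - q2 * a ≠ 0 := by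
    have := lin_ne ha (ne_of_gt hq2pos) m2
    intro h; apply this; linarith
  have he2pos : 0 < (m2 : ℝ) - q2 * a :=
    lt_of_le_of_ne (by rw [he2]; exact hb2) (Ne.symm hne)
  have he2lt : (m2 : ℝ) - q2 * a < p1 * a - n1 := by rw [he2]; exact hb3
  obtain ⟨c, hc1, hc2, hc3⟩ := exists_floor he2pos he2lt
  set q1 : ℤ := p1 + c * q2 with hq1
  set m1 : ℤ := n1 + c * m2 with hm1
  have hq1q : q2 ≤ q1 := by
    have : 1 * q2 ≤ c * q2 := mul_le_mul_of_nonneg_right hc1 hq2pos.le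
    rw [hq1]; linarith
  have he1 : (q1 : ℝ) * a - m1 = (p1 * a - n1) - c * (m2 - q2 * a) := by
    rw [hq1, hm1]; push_cast; ring
  have hne1 : (q1 : ℝ) * a - m1 ≠ 0 := lin_ne ha (by linarith) m1
  refine ⟨q1, m1, q2, m2, ⟨?_, hq2pos, hq1q, ?_, ?_⟩, hq2p⟩
  · have h0 : m2 * q1 - m1 * q2 = m2 * p1 - n1 * q2 := by rw [hq1, hm1]; ring
    rw [h0, hq2, hm2]
    have : (n2 + b * n1) * p1 - n1 * (p2 + b * p1) = n2 * p1 - n1 * p2 := by ring
    rw [this, hdet]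
  · exact lt_of_le_of_ne (by rw [he1]; exact hc2) (Ne.symm hne1)
  · rw [he1]; exact hc3

lemma Good.exists_large {a : ℝ} (ha : Irrational a) {p1 n1 p2 n2 : ℤ}
    (h : Good a p1 n1 p2 n2) (N : ℕ) :
    ∃ q1 m1 q2 m2 : ℤ, Good a q1 m1 q2 m2 ∧ (N : ℤ) < q2 := by
  induction N with
  | zero => exact ⟨p1, n1, p2, n2, h, by simpa using h.2.1⟩
  | succ N ih =>
    obtain ⟨q1, m1, q2, m2, hg, hq⟩ := ih
    obtain ⟨r1, k1, r2, k2, hg', hr⟩ := hg.step ha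
    exact ⟨r1, k1, r2, k2, hg', by push_cast; linarith⟩

/-- The key one-sided approximation. -/
lemma exists_odd_above {a : ℝ} (ha : Irrational a) {p1 n1 p2 n2 : ℤ}
    (h : Good a p1 n1 p2 n2) (N : ℕ) :
    ∃ p n : ℤ, (N : ℤ) < p ∧ Odd p ∧ 0 < (n : ℝ) - p * a ∧ ((n : ℝ) - p * a) * p < 2 := by
  obtain ⟨q1, m1, q2, m2, ⟨hdet, hq2, hq, h1, h12⟩, hN⟩ := h.exists_large ha N
  have hdetR : ((m2 : ℝ) - q2 * a) * q1 + ((q1 : ℝ) * a - m1) * q2 = 1 := by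
    have : ((m2 * q1 - m1 * q2 : ℤ) : ℝ) = 1 := by exact_mod_cast hdet
    push_cast at this
    linarith
  have hq2R : (0 : ℝ) < q2 := by exact_mod_cast hq2
  have hqR : (q2 : ℝ) ≤ q1 := by exact_mod_cast hq
  have he2 : 0 < (m2 : ℝ) - q2 * a := lt_trans h1 h12
  have hlt1 : ((m2 : ℝ) - q2 * a) * q1 < 1 := by
    have : 0 < ((q1 : ℝ) * a - m1) * q2 := mul_pos h1 hq2R
    linarith
  rcases Int.even_or_odd q2 with hev | hodd
  · have hq1odd : Odd q1 := by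
      by_contra hne
      rw [Int.not_odd_iff_even] at hne
      have h2 : Even (m2 * q1 - m1 * q2) := (hne.mul_left _).sub (hev.mul_left _)
      rw [hdet] at h2
      exact absurd h2 (by decide)
    refine ⟨q1 + q2, m1 + m2, by linarith, hq1odd.add_even hev, ?_, ?_⟩
    · push_cast; linarith
    · have hE : ((m1 + m2 : ℤ) : ℝ) - ((q1 + q2 : ℤ) : ℝ) * a
          = ((m2 : ℝ) - q2 * a) - ((q1 : ℝ) * a - m1) := by push_cast; ring
      rw [hE]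
      push_cast
      have hlt : ((m2 : ℝ) - q2 * a) - ((q1 : ℝ) * a - m1) < (m2 : ℝ) - q2 * a := by linarith
      have hs : (0 : ℝ) < (q1 : ℝ) + q2 := by linarith
      calc (((m2 : ℝ) - q2 * a) - ((q1 : ℝ) * a - m1)) * ((q1 : ℝ) + q2)
          < ((m2 : ℝ) - q2 * a) * ((q1 : ℝ) + q2) := mul_lt_mul_of_pos_right hlt hs
        _ ≤ ((m2 : ℝ) - q2 * a) * ((q1 : ℝ) + q1) :=
            mul_le_mul_of_nonneg_left (by linarith) he2.le
        _ = 2 * (((m2 : ℝ) - q2 * a) * q1) := by ring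
        _ ≤ 2 := by linarith
  · refine ⟨q2, m2, hN, hodd, he2, ?_⟩
    have : ((m2 : ℝ) - q2 * a) * q2 ≤ ((m2 : ℝ) - q2 * a) * q1 :=
      mul_le_mul_of_nonneg_left hqR he2.le
    linarith

end Pool.Agent.Lib_MP_780098_nt
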