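import Mathlib

/-! The sum of the `(1 - k/m)^n` from below, and the two inequalities of a critical pair. -/

namespace Pool.Agent.Lib_MP_780098_nt

open Finset

lemma sum_A0 (K : ℕ) : ∑ k ∈ Ico 1 (K + 1), (1 / 2 : ℝ) ^ k = 1 - (1 / 2) ^ K := by
  induction K with
  | zero => simp
  | succ K ih => rw [sum_Ico_succ_top (by omega), ih, pow_succ]; ring

lemma sum_A1 (K : ℕ) : ∑ k ∈ Ico 1 (K + 1), (1 / 2 : ℝ) ^ k * k
    = 2 - (K + 2) * (1 / 2) ^ K := by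
  induction K with
  | zero => simp
  | succ K ih => rw [sum_Ico_succ_top (by omega), ih, pow_succ]; push_cast; ring

lemma sum_A2 (K : ℕ) : ∑ k ∈ Ico 1 (K + 1), (1 / 2 : ℝ) ^ k * k ^ 2
    = 6 - (K ^ 2 + 4 * K + 6) * (1 / 2) ^ K := by
  induction K with
  | zero => simp
  | succ K ih => rw [sum_Ico_succ_top (by omega), ih, pow_succ]; push_cast; ring

lemma sum_A3 (K : ℕ) : ∑ k ∈ Ico 1 (K + 1), (1 / 2 : ℝ) ^ k * k ^ 3
    = 26 - (K ^ 3 + 6 * K ^ 2 + 18 * K + 26) * (1 / 2) ^ K := by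
  induction K with
  | zero => simp
  | succ K ih => rw [sum_Ico_succ_top (by omega), ih, pow_succ]; push_cast; ring

lemma sum_A4 (K : ℕ) : ∑ k ∈ Ico 1 (K + 1), (1 / 2 : ℝ) ^ k * k ^ 4
    = 150 - (K ^ 4 + 8 * K ^ 3 + 36 * K ^ 2 + 104 * K + 150) * (1 / 2) ^ K := by
  induction K with
  | zero => simp
  | succ K ih => rw [sum_Ico_succ_top (by omega), ih, pow_succ]; push_cast; ring

lemma cube_le_pow (m : ℕ) (hm : 17 ≤ m) : 3 * (m : ℝ) ^ 3 * (1 / 2) ^ (m - 1) ≤ 1 := by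
  have h : 3 * m ^ 3 ≤ 2 ^ (m - 1) := by
    induction m, hm using Nat.le_induction with
    | base => norm_num
    | succ m hm ih =>
      have h1 : m + 1 - 1 = (m - 1) + 1 := by omega
      rw [h1, pow_succ]
      have h2 : (m + 1) ^ 3 ≤ m ^ 3 * 2 := by
        have : (m + 1) ^ 3 = m ^ 3 + (3 * m ^ 2 + 3 * m + 1) := by ring
        have h3 : 3 * m ^ 2 + 3 * m + 1 ≤ m ^ 3 := by nlinarith
        omega
      calc 3 * (m + 1) ^ 3 ≤ 3 * (m ^ 3 * 2) := Nat.mul_le_mul_left _ h2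
        _ = (3 * m ^ 3) * 2 := by ring
        _ ≤ 2 ^ (m - 1) * 2 := Nat.mul_le_mul_right _ ih
  have hR : 3 * (m : ℝ) ^ 3 ≤ 2 ^ (m - 1) := by exact_mod_cast h
  calc 3 * (m : ℝ) ^ 3 * (1 / 2) ^ (m - 1) ≤ 2 ^ (m - 1) * (1 / 2) ^ (m - 1) :=
        mul_le_mul_of_nonneg_right hR (by positivity)
    _ = 1 := by rw [← mul_pow]; norm_num

lemma log_one_sub_ge {x : ℝ} (h0 : 0 ≤ x) (h1 : x ≤ 1 / 2) :
    -(x + x ^ 2 / 2 + x ^ 3 / 3 + 2 * x ^ 4) ≤ Real.log (1 - x) := by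
  have hx : |x| < 1 := by rw [abs_of_nonneg h0]; linarith
  have h := Real.abs_log_sub_add_sum_range_le hx 3
  rw [abs_of_nonneg h0] at h
  simp only [sum_range_succ, sum_range_zero, zero_add] at h
  have h2 : x ^ (3 + 1) / (1 - x) ≤ 2 * x ^ 4 := by
    rw [div_le_iff₀ (by linarith)]
    have h4 : 0 ≤ x ^ 4 := by positivity
    have h5 : x ^ (3 + 1) = x ^ 4 := by norm_num
    rw [h5]
    nlinarith
  have h3 := (abs_le.mp (h.trans h2)).1
  norm_num at h3 ⊢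
  linarith

/-- The term with index `k`. -/
lemma term_ge {m n k : ℕ} (hm : 100 ≤ m) (hk1 : 1 ≤ k) (hk : k < m)
    (hn1 : Real.log 2 * (2 * m - 3) ≤ 2 * n) :
    (1 / 2 : ℝ) ^ k * (1 + (k * Real.log 2 - n * ((k : ℝ) / m + ((k : ℝ) / m) ^ 2 / 2
      + ((k : ℝ) / m) ^ 3 / 3 + 2 * ((k : ℝ) / m) ^ 4))) ≤ (1 - (k : ℝ) / m) ^ n := by
  have hmR : (100 : ℝ) ≤ m := by exact_mod_cast hm
  have hm0 : (0 : ℝ) < m := by linarith
  have hkR : (k : ℝ) < m := by exact_mod_cast hk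
  set x : ℝ := (k : ℝ) / m with hx
  have hx0 : 0 ≤ x := by positivity
  have hx1 : x < 1 := by rw [hx, div_lt_one hm0]; exact hkR
  have hL1 := Real.log_two_gt_d9
  have hL2 := Real.log_two_lt_d9
  set L : ℝ := Real.log 2 with hL
  rcases le_or_gt x (1 / 2) with hc | hc
  · have hlog := log_one_sub_ge hx0 hc
    have hpos : (0 : ℝ) < 1 - x := by linarith
    have h1 : (1 - x) ^ n = Real.exp (n * Real.log (1 - x)) := by
      rw [mul_comm, Real.exp_mul, Real.exp_log hpos, Real.rpow_natCast]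
    have h2 : (1 / 2 : ℝ) ^ k = Real.exp (-(k * L)) := by
      rw [Real.exp_neg, mul_comm, Real.exp_mul, hL, Real.exp_log (by norm_num),
        Real.rpow_natCast]
      rw [one_div, inv_pow]
    rw [h1, h2]
    have h3 := Real.add_one_le_exp (k * L - n * (x + x ^ 2 / 2 + x ^ 3 / 3 + 2 * x ^ 4))
    calc Real.exp (-(k * L)) * (1 + (k * L - n * (x + x ^ 2 / 2 + x ^ 3 / 3 + 2 * x ^ 4)))
        ≤ Real.exp (-(k * L)) * Real.exp (k * L - n * (x + x ^ 2 / 2 + x ^ 3 / 3 + 2 * x ^ 4)) :=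
          mul_le_mul_of_nonneg_left (by linarith) (Real.exp_pos _).le
      _ = Real.exp (-(n * (x + x ^ 2 / 2 + x ^ 3 / 3 + 2 * x ^ 4))) := by
          rw [← Real.exp_add]; congr 1; ring
      _ ≤ Real.exp (n * Real.log (1 - x)) := by
          apply Real.exp_le_exp.mpr
          have hn0 : (0 : ℝ) ≤ n := Nat.cast_nonneg n
          have := mul_le_mul_of_nonneg_left hlog hn0
          linarith
  · have hkx : (k : ℝ) = x * m := by rw [hx]; field_simp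
    have h5 : 1 + (k * L - n * (x + x ^ 2 / 2 + x ^ 3 / 3 + 2 * x ^ 4)) ≤ 0 := by
      have hn0 : (0 : ℝ) ≤ n := Nat.cast_nonneg n
      have hx2 : 1 / 4 ≤ x ^ 2 := by nlinarith
      have hx3 : 1 / 8 ≤ x ^ 3 := by nlinarith
      have hx4 : 1 / 16 ≤ x ^ 4 := by nlinarith
      have h6 : (n : ℝ) * (x + 7 / 24) ≤ n * (x + x ^ 2 / 2 + x ^ 3 / 3 + 2 * x ^ 4) :=
        mul_le_mul_of_nonneg_left (by linarith) hn0
      have h7 : L * (2 * m - 3) / 2 * (x + 7 / 24) ≤ n * (x + 7 / 24) :=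
        mul_le_mul_of_nonneg_right (by linarith) (by linarith)
      have h8 : 1 + (k * L - L * (2 * m - 3) / 2 * (x + 7 / 24)) ≤ 0 := by
        rw [hkx]
        have h9 : L * (3 / 2 * x + 7 / 16) ≤ 2 * (7 / 10) := by nlinarith
        have h10 : (69 / 100 : ℝ) * 100 * (7 / 24) ≤ L * m * (7 / 24) := by
          have : (69 / 100 : ℝ) * 100 ≤ L * m := by
            apply mul_le_mul (by linarith) hmR (by norm_num) (by linarith)
          linarith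
        have h11 : 1 + (x * m * L - L * (2 * m - 3) / 2 * (x + 7 / 24))
            = 1 + L * (3 / 2 * x + 7 / 16) - L * m * (7 / 24) := by ring
        rw [h11]
        linarith
      linarith
    calc (1 / 2 : ℝ) ^ k * (1 + (k * L - n * (x + x ^ 2 / 2 + x ^ 3 / 3 + 2 * x ^ 4))) ≤ 0 :=
          mul_nonpos_of_nonneg_of_nonpos (by positivity) h5
      _ ≤ (1 - x) ^ n := by
          apply pow_nonneg; linarith


lemma exp_ge_quad {y : ℝ} (h : |y| ≤ 1) : 1 + y + y ^ 2 / 2 - |y| ^ 3 ≤ Real.exp y := by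
  have h1 := Real.exp_bound h (show 0 < 3 by norm_num)
  have h2 : ∑ i ∈ range 3, y ^ i / (i.factorial : ℝ) = 1 + y + y ^ 2 / 2 := by
    norm_num [sum_range_succ, Nat.factorial]
  rw [h2] at h1
  have h3 : |y| ^ 3 * ((Nat.succ 3 : ℕ) / ((Nat.factorial 3 : ℕ) * (3 : ℕ)) : ℝ) ≤ |y| ^ 3 := by
    have h4 : ((Nat.succ 3 : ℕ) / ((Nat.factorial 3 : ℕ) * (3 : ℕ)) : ℝ) ≤ 1 := by
      norm_num [Nat.factorial]
    have h5 : 0 ≤ |y| ^ 3 := by positivity
    nlinarith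
  have h4 := (abs_le.mp (h1.trans h3)).1
  linarith

/-- The deviation of the exponent. -/
noncomputable def Y (m n k : ℕ) : ℝ :=
  k * Real.log 2 - n * ((k : ℝ) / m + ((k : ℝ) / m) ^ 2 / 2
      + ((k : ℝ) / m) ^ 3 / 3 + 2 * ((k : ℝ) / m) ^ 4)

/-- The gain from the quadratic term. -/
noncomputable def G (k : ℕ) (M : ℝ) : ℝ :=
  if k ≤ 40 then (Real.log 2) ^ 2 / 8 * ((k : ℝ) ^ 2 - 3 * k) ^ 2 / M ^ 2
    - (1 / 5000) / M ^ 2 else 0

lemma Y_decomp {m n k : ℕ} {d : ℝ} (hm : 0 < m)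
    (hd : (n : ℝ) = (Real.log 2 * (2 * m - 3) + d) / 2) :
    Y m n k = -(Real.log 2 / 2) * ((k : ℝ) ^ 2 - 3 * k) / m
      + (-(d / 2) * k / m + (3 * Real.log 2 / 4 - d / 4) * (k : ℝ) ^ 2 / (m : ℝ) ^ 2
        - n * (((k : ℝ) / m) ^ 3 / 3 + 2 * ((k : ℝ) / m) ^ 4)) := by
  have hm0 : (m : ℝ) ≠ 0 := by exact_mod_cast hm.ne'
  have h1 : Y m n k = k * Real.log 2 - n * ((k : ℝ) / m + ((k : ℝ) / m) ^ 2 / 2)
      - n * (((k : ℝ) / m) ^ 3 / 3 + 2 * ((k : ℝ) / m) ^ 4) := by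
    unfold Y; ring
  rw [h1]
  have h2 : k * Real.log 2 - n * ((k : ℝ) / m + ((k : ℝ) / m) ^ 2 / 2)
      = -(Real.log 2 / 2) * ((k : ℝ) ^ 2 - 3 * k) / m
      + (-(d / 2) * k / m + (3 * Real.log 2 / 4 - d / 4) * (k : ℝ) ^ 2 / (m : ℝ) ^ 2) := by
    rw [hd]
    field_simp
    ring
  rw [h2]
  ring

lemma Y_quad {m n k : ℕ} {d : ℝ} (hm : 10 ^ 12 ≤ m) (hk1 : 1 ≤ k) (hk : k ≤ 40)
    (hd : (n : ℝ) = (Real.log 2 * (2 * m - 3) + d) / 2) (hd0 : 0 < d)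
    (hd1 : d * (2 * m - 3) < 4) :
    |Y m n k| ≤ 1 ∧ (Real.log 2) ^ 2 / 8 * ((k : ℝ) ^ 2 - 3 * k) ^ 2 / (m : ℝ) ^ 2
      - (1 / 5000) / (m : ℝ) ^ 2 ≤ (Y m n k) ^ 2 / 2 - |Y m n k| ^ 3 := by
  have hmR : (10 ^ 12 : ℝ) ≤ m := by exact_mod_cast hm
  have hmpos : 0 < m := lt_of_lt_of_le (by norm_num) hm
  clear hm
  have hdec := Y_decomp (n := n) (k := k) hmpos hd
  have hL1 := Real.log_two_gt_d9
  have hL2 := Real.log_two_lt_d9
  set L : ℝ := Real.log 2 with hL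
  set M : ℝ := (m : ℝ) with hM
  clear_value M L
  have hM0 : 0 < M := lt_of_lt_of_le (by norm_num) hmR
  have hk1R : (1 : ℝ) ≤ k := by exact_mod_cast hk1
  have hkR : (k : ℝ) ≤ 40 := by exact_mod_cast hk
  set y : ℝ := Y m n k with hy
  clear_value y
  have hn0 : (0 : ℝ) ≤ n := Nat.cast_nonneg n
  set N : ℝ := (n : ℝ) with hN
  set κ : ℝ := (k : ℝ) with hκ
  clear_value N κ
  have hdM : d * M ≤ 3 := by nlinarith
  have hdsmall : d ≤ 1 := by nlinarith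
  have hNM : N ≤ M := by rw [hd]; nlinarith
  set u : ℝ := (L / 2) * (κ ^ 2 - 3 * κ) with hu
  set r : ℝ := -(d / 2) * κ * M + (3 * L / 4 - d / 4) * κ ^ 2
    - N / M * (κ ^ 3 / 3 + 2 * κ ^ 4 / M) with hr
  have hyu : y = -u / M + r / M ^ 2 := by
    rw [hdec, hu, hr]
    field_simp
  have hκ2 : κ ^ 2 ≤ 1600 := by nlinarith
  have hκ20 : 0 ≤ κ ^ 2 := by positivity
  have hub : |u| ≤ 520 := by
    rw [hu, abs_le]
    have h1 : -3 ≤ κ ^ 2 - 3 * κ := by nlinarith [sq_nonneg (κ - 3 / 2)]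
    have h2 : κ ^ 2 - 3 * κ ≤ 1480 := by nlinarith
    constructor <;> nlinarith
  have hrb : |r| ≤ 30000 := by
    have h1 : 0 ≤ d / 2 * κ * M ∧ d / 2 * κ * M ≤ 60 := by
      constructor
      · positivity
      · have : d / 2 * κ * M = (d * M) / 2 * κ := by ring
        rw [this]
        have h3 : 0 ≤ d * M := by positivity
        nlinarith
    have h2 : 0 ≤ (3 * L / 4 - d / 4) * κ ^ 2 ∧ (3 * L / 4 - d / 4) * κ ^ 2 ≤ 1600 := by
      have h3 : 0 ≤ 3 * L / 4 - d / 4 := by linarith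
      have h4 : 3 * L / 4 - d / 4 ≤ 1 := by linarith
      constructor
      · positivity
      · calc (3 * L / 4 - d / 4) * κ ^ 2 ≤ 1 * κ ^ 2 := mul_le_mul_of_nonneg_right h4 hκ20
          _ ≤ 1600 := by linarith
    have h3 : 0 ≤ N / M * (κ ^ 3 / 3 + 2 * κ ^ 4 / M) ∧
        N / M * (κ ^ 3 / 3 + 2 * κ ^ 4 / M) ≤ 22000 := by
      have hκ0 : 0 ≤ κ := by linarith
      have h4 : N / M ≤ 1 := by rw [div_le_one hM0]; exact hNM
      have h5 : κ ^ 3 ≤ 64000 := by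
        calc κ ^ 3 = κ ^ 2 * κ := by ring
          _ ≤ 1600 * 40 := mul_le_mul hκ2 hkR hκ0 (by norm_num)
          _ = 64000 := by norm_num
      have h6 : κ ^ 4 ≤ 2560000 := by
        calc κ ^ 4 = κ ^ 2 * κ ^ 2 := by ring
          _ ≤ 1600 * 1600 := mul_le_mul hκ2 hκ2 hκ20 (by norm_num)
          _ = 2560000 := by norm_num
      have h7 : 2 * κ ^ 4 / M ≤ 1 := by
        rw [div_le_one hM0]; linarith
      constructor
      · positivity
      · calc N / M * (κ ^ 3 / 3 + 2 * κ ^ 4 / M) ≤ 1 * (κ ^ 3 / 3 + 2 * κ ^ 4 / M) :=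
              mul_le_mul_of_nonneg_right h4 (by positivity)
          _ ≤ 22000 := by linarith
    have hr2 : r = -(d / 2 * κ * M) + (3 * L / 4 - d / 4) * κ ^ 2
        - N / M * (κ ^ 3 / 3 + 2 * κ ^ 4 / M) := by rw [hr]; ring
    rw [hr2, abs_le]
    constructor <;> linarith [h1.1, h1.2, h2.1, h2.2, h3.1, h3.2]
  have hyM : |y| ≤ 521 / M := by
    rw [hyu]
    calc |(-u / M + r / M ^ 2)| ≤ |(-u / M)| + |r / M ^ 2| := abs_add_le _ _
      _ = |u| / M + |r| / M ^ 2 := by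
          rw [abs_div, abs_div, abs_neg, abs_of_pos hM0, abs_of_pos (by positivity : 0 < M ^ 2)]
      _ ≤ 520 / M + 30000 / M ^ 2 := by
          apply add_le_add
          · exact div_le_div_of_nonneg_right hub hM0.le
          · exact div_le_div_of_nonneg_right hrb (by positivity)
      _ ≤ 521 / M := by
          have : 30000 / M ^ 2 ≤ 1 / M := by
            rw [div_le_div_iff₀ (by positivity) hM0]
            nlinarith
          have h2 : 521 / M = 520 / M + 1 / M := by ring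
          linarith
  have hy1 : |y| ≤ 1 := by
    refine hyM.trans ?_
    rw [div_le_one hM0]; linarith
  refine ⟨hy1, ?_⟩
  have hy3 : |y| ^ 3 ≤ (150000000 : ℝ) / M ^ 3 := by
    calc |y| ^ 3 ≤ (521 / M) ^ 3 := pow_le_pow_left₀ (abs_nonneg _) hyM 3
      _ = 521 ^ 3 / M ^ 3 := by rw [div_pow]
      _ ≤ 150000000 / M ^ 3 := by
          apply div_le_div_of_nonneg_right _ (by positivity)
          norm_num
  have hy2 : u ^ 2 / 2 / M ^ 2 - 16000000 / M ^ 3 ≤ y ^ 2 / 2 := by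
    have h1 : y ^ 2 / 2 = u ^ 2 / 2 / M ^ 2 - u * r / M ^ 3 + r ^ 2 / 2 / M ^ 4 := by
      rw [hyu]; field_simp; ring
    rw [h1]
    have h2 : u * r ≤ 16000000 := by
      calc u * r ≤ |u * r| := le_abs_self _
        _ = |u| * |r| := abs_mul _ _
        _ ≤ 520 * 30000 := mul_le_mul hub hrb (abs_nonneg _) (by norm_num)
        _ ≤ 16000000 := by norm_num
    have h3 : u * r / M ^ 3 ≤ 16000000 / M ^ 3 :=
      div_le_div_of_nonneg_right h2 (by positivity)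
    have h4 : 0 ≤ r ^ 2 / 2 / M ^ 4 := by positivity
    linarith
  have hu2 : L ^ 2 / 8 * (κ ^ 2 - 3 * κ) ^ 2 / M ^ 2 = u ^ 2 / 2 / M ^ 2 := by
    rw [hu]; ring
  have hfin : (16000000 : ℝ) / M ^ 3 + 150000000 / M ^ 3 ≤ (1 / 5000) / M ^ 2 := by
    rw [← add_div, div_le_div_iff₀ (by positivity) (by positivity)]
    have : (16000000 + 150000000 : ℝ) ≤ 1 / 5000 * M := by linarith
    calc (16000000 + 150000000 : ℝ) * M ^ 2 ≤ (1 / 5000 * M) * M ^ 2 :=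
          mul_le_mul_of_nonneg_right this (by positivity)
      _ = 1 / 5000 * M ^ 3 := by ring
  rw [hu2]
  linarith

/-- The term with index `k`, with the gain. -/
lemma term_ge' {m n k : ℕ} {d : ℝ} (hm : 10 ^ 12 ≤ m) (hk1 : 1 ≤ k) (hk : k < m)
    (hd : (n : ℝ) = (Real.log 2 * (2 * m - 3) + d) / 2) (hd0 : 0 < d)
    (hd1 : d * (2 * m - 3) < 4) :
    (1 / 2 : ℝ) ^ k * (1 + Y m n k + G k m) ≤ (1 - (k : ℝ) / m) ^ n := by
  by_cases hc : k ≤ 40
  · have hq := Y_quad hm hk1 hc hd hd0 hd1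
    have hmR : (10 ^ 12 : ℝ) ≤ m := by exact_mod_cast hm
    clear hm
    have hm0 : (0 : ℝ) < m := lt_of_lt_of_le (by norm_num) hmR
    have hx0 : 0 ≤ (k : ℝ) / m := by positivity
    have hkR : (k : ℝ) ≤ 40 := by exact_mod_cast hc
    have hxh : (k : ℝ) / m ≤ 1 / 2 := by
      rw [div_le_div_iff₀ hm0 (by norm_num)]; linarith
    have hlog := log_one_sub_ge hx0 hxh
    have hpos : (0 : ℝ) < 1 - (k : ℝ) / m := by linarith
    have h1 : (1 - (k : ℝ) / m) ^ n = Real.exp (n * Real.log (1 - (k : ℝ) / m)) := by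
      rw [mul_comm, Real.exp_mul, Real.exp_log hpos, Real.rpow_natCast]
    have h2 : (1 / 2 : ℝ) ^ k = Real.exp (-(k * Real.log 2)) := by
      rw [Real.exp_neg, mul_comm, Real.exp_mul, Real.exp_log (by norm_num),
        Real.rpow_natCast]
      rw [one_div, inv_pow]
    have h3 := exp_ge_quad hq.1
    have h4 : 1 + Y m n k + G k m ≤ Real.exp (Y m n k) := by
      have h5 : G k m ≤ (Y m n k) ^ 2 / 2 - |Y m n k| ^ 3 := by
        unfold G; rw [if_pos hc]; exact hq.2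
      linarith
    rw [h1]
    calc (1 / 2 : ℝ) ^ k * (1 + Y m n k + G k m)
        ≤ (1 / 2 : ℝ) ^ k * Real.exp (Y m n k) :=
          mul_le_mul_of_nonneg_left h4 (by positivity)
      _ = Real.exp (-(n * ((k : ℝ) / m + ((k : ℝ) / m) ^ 2 / 2
      + ((k : ℝ) / m) ^ 3 / 3 + 2 * ((k : ℝ) / m) ^ 4))) := by
          rw [h2, ← Real.exp_add]; unfold Y; congr 1; ring
      _ ≤ Real.exp (n * Real.log (1 - (k : ℝ) / m)) := by
          apply Real.exp_le_exp.mpr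
          have hn0 : (0 : ℝ) ≤ n := Nat.cast_nonneg n
          have := mul_le_mul_of_nonneg_left hlog hn0
          linarith
  · have h5 : G k m = 0 := by unfold G; rw [if_neg hc]
    rw [h5, add_zero]
    have h6 : Real.log 2 * (2 * m - 3) ≤ 2 * n := by rw [hd]; linarith
    exact term_ge (le_trans (by norm_num) hm) hk1 hk h6

lemma sum_G {m : ℕ} (hm : 41 ≤ m) {M : ℝ} (hM : 0 < M) :
    (Real.log 2) ^ 2 / 8 * (47999 / 1000) / M ^ 2 - (1 / 5000) / M ^ 2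
      ≤ ∑ k ∈ Ico 1 m, (1 / 2 : ℝ) ^ k * G k M := by
  have hsub : Ico 1 41 ⊆ Ico 1 m := Ico_subset_Ico_right hm
  rw [← sum_subset hsub (f := fun k => (1 / 2 : ℝ) ^ k * G k M) (by
    intro k _ hk
    have : ¬ k ≤ 40 := by
      intro h
      apply hk
      rw [mem_Ico] at *
      omega
    simp [G, this])]
  have h1 : ∀ k ∈ Ico 1 41, (1 / 2 : ℝ) ^ k * G k M
      = (Real.log 2) ^ 2 / 8 / M ^ 2 * ((1 / 2 : ℝ) ^ k * ((k : ℝ) ^ 2 - 3 * k) ^ 2)
        - (1 / 5000) / M ^ 2 * (1 / 2 : ℝ) ^ k := by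
    intro k hk
    rw [mem_Ico] at hk
    unfold G
    rw [if_pos (by omega)]
    ring
  rw [sum_congr rfl h1, sum_sub_distrib, ← mul_sum, ← mul_sum]
  have h2 : (47999 / 1000 : ℝ) ≤ ∑ k ∈ Ico (1 : ℕ) 41, (1 / 2 : ℝ) ^ k * ((k : ℝ) ^ 2 - 3 * k) ^ 2 := by
    norm_num [sum_Ico_succ_top]
  have h3 : ∑ k ∈ Ico 1 41, (1 / 2 : ℝ) ^ k ≤ 1 := by
    rw [sum_A0 40]
    have : (0 : ℝ) ≤ (1 / 2) ^ 40 := by positivity
    linarith
  have h4 : (Real.log 2) ^ 2 / 8 / M ^ 2 * (47999 / 1000)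
      ≤ (Real.log 2) ^ 2 / 8 / M ^ 2 *
        ∑ k ∈ Ico (1 : ℕ) 41, (1 / 2 : ℝ) ^ k * ((k : ℝ) ^ 2 - 3 * k) ^ 2 :=
    mul_le_mul_of_nonneg_left h2 (by positivity)
  have h5 : (1 / 5000) / M ^ 2 * ∑ k ∈ Ico 1 41, (1 / 2 : ℝ) ^ k ≤ (1 / 5000) / M ^ 2 * 1 :=
    mul_le_mul_of_nonneg_left h3 (by positivity)
  have h6 : (Real.log 2) ^ 2 / 8 * (47999 / 1000) / M ^ 2
      = (Real.log 2) ^ 2 / 8 / M ^ 2 * (47999 / 1000) := by ring
  rw [h6]
  linarith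

/-- The lower bound for the sum. -/
lemma sum_gt {m n : ℕ} (hm : 10 ^ 12 ≤ m) (h0 : Real.log 2 * (2 * m - 3) < 2 * n)
    (h1 : (2 * n - Real.log 2 * (2 * m - 3)) * (2 * m - 3) < 4) :
    1 - (201 / 100) / (m : ℝ) ^ 2 < ∑ k ∈ Ico 1 m, (1 - (k : ℝ) / m) ^ n := by
  have hmR : (10 ^ 12 : ℝ) ≤ m := by exact_mod_cast hm
  have hm40 : 41 ≤ m := le_trans (by norm_num) hm
  have hm0 : (0 : ℝ) < m := by linarith
  have hL1 := Real.log_two_gt_d9
  have hL2 := Real.log_two_lt_d9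
  set L : ℝ := Real.log 2 with hL
  set d : ℝ := 2 * n - L * (2 * m - 3) with hd
  have hd0 : 0 < d := by rw [hd]; linarith
  have hd1 : d < 4 / (2 * m - 3) := by
    rw [lt_div_iff₀ (by linarith)]; exact h1
  have hnval : (n : ℝ) = (L * (2 * m - 3) + d) / 2 := by rw [hd]; ring
  have hterm : ∀ k ∈ Ico 1 m, (1 / 2 : ℝ) ^ k * (1 + Y m n k + G k m)
      ≤ (1 - (k : ℝ) / m) ^ n := by
    intro k hk
    rw [mem_Ico] at hk
    exact term_ge' hm hk.1 hk.2 hnval hd0 h1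
  refine lt_of_lt_of_le ?_ (sum_le_sum hterm)
  have hG := sum_G hm40 hm0
  have hsplit : ∑ k ∈ Ico 1 m, (1 / 2 : ℝ) ^ k * (1 + Y m n k + G k m)
      = ∑ k ∈ Ico 1 m, (1 / 2 : ℝ) ^ k * (1 + (k * L - n * ((k : ℝ) / m
      + ((k : ℝ) / m) ^ 2 / 2 + ((k : ℝ) / m) ^ 3 / 3 + 2 * ((k : ℝ) / m) ^ 4)))
      + ∑ k ∈ Ico 1 m, (1 / 2 : ℝ) ^ k * G k m := by
    rw [← sum_add_distrib]
    refine sum_congr rfl (fun k _ => ?_)
    unfold Y
    rw [← hL]
    ring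
  rw [hsplit]
  clear hsplit hterm
  have hm17 : 17 ≤ m := by omega
  clear hm
  obtain ⟨K, rfl⟩ : ∃ K, m = K + 1 := ⟨m - 1, by omega⟩
  have hcube := cube_le_pow (K + 1) hm17
  clear hm17 hm40
  set SG : ℝ := ∑ k ∈ Ico 1 (K + 1), (1 / 2 : ℝ) ^ k * G k ((K + 1 : ℕ) : ℝ) with hSG
  clear_value SG
  set M : ℝ := ((K + 1 : ℕ) : ℝ) with hM
  have hKM : (K : ℝ) = M - 1 := by rw [hM]; push_cast; ring
  clear_value M
  have hM0 : M ≠ 0 := hm0.ne'
  have hexp : ∀ k ∈ Ico 1 (K + 1), (1 / 2 : ℝ) ^ k * (1 + (k * L - n * ((k : ℝ) / M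
      + ((k : ℝ) / M) ^ 2 / 2 + ((k : ℝ) / M) ^ 3 / 3 + 2 * ((k : ℝ) / M) ^ 4)))
      = (1 / 2 : ℝ) ^ k + (L - n / M) * ((1 / 2 : ℝ) ^ k * k)
        - n / (2 * M ^ 2) * ((1 / 2 : ℝ) ^ k * k ^ 2)
        - n / (3 * M ^ 3) * ((1 / 2 : ℝ) ^ k * k ^ 3)
        - 2 * n / M ^ 4 * ((1 / 2 : ℝ) ^ k * k ^ 4) := by
    intro k _
    field_simp
    ring
  rw [sum_congr rfl hexp, sum_sub_distrib, sum_sub_distrib, sum_sub_distrib, sum_add_distrib,
    ← mul_sum, ← mul_sum, ← mul_sum, ← mul_sum, sum_A0, sum_A1, sum_A2, sum_A3, sum_A4]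
  set T : ℝ := (1 / 2 : ℝ) ^ K with hT
  have hT0 : 0 < T := by positivity
  have hTM : 3 * M ^ 3 * T ≤ 1 := hcube
  have hT3 : 3 * T ≤ 1 / M ^ 3 := by
    rw [le_div_iff₀ (by positivity)]; linarith
  have hn0 : (0 : ℝ) ≤ n := Nat.cast_nonneg n
  have hK0 : (0 : ℝ) ≤ K := Nat.cast_nonneg K
  have hdsmall : d < 1 / 100000 := by
    refine lt_trans hd1 ?_
    rw [div_lt_div_iff₀ (by linarith) (by norm_num)]
    linarith
  have hnLM : (n : ℝ) ≤ L * M := by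
    rw [hnval]
    nlinarith
  -- the four pieces
  have e1 : (L - n / M) * (2 - (K + 2) * T) ≥ (3 * L - d) / M - 2 * T := by
    have h2 : L - n / M = (3 * L - d) / (2 * M) := by
      rw [hnval]; field_simp; ring
    rw [h2, hKM]
    have h3 : (3 * L - d) / (2 * M) * (2 - (M - 1 + 2) * T)
        = (3 * L - d) / M - (3 * L - d) * ((M + 1) / (2 * M)) * T := by
      field_simp; ring
    rw [h3]
    have h4 : (3 * L - d) * ((M + 1) / (2 * M)) ≤ 2 := by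
      have h5 : (M + 1) / (2 * M) ≤ 3 / 5 := by
        rw [div_le_div_iff₀ (by linarith) (by norm_num)]; linarith
      have h6 : 3 * L - d ≤ 3 := by linarith
      have h7 : 0 ≤ 3 * L - d := by linarith
      calc (3 * L - d) * ((M + 1) / (2 * M)) ≤ (3 * L - d) * (3 / 5) :=
            mul_le_mul_of_nonneg_left h5 h7
        _ ≤ 2 := by linarith
    have := mul_le_mul_of_nonneg_right h4 hT0.le
    linarith
  have e2 : n / (2 * M ^ 2) * (6 - (K ^ 2 + 4 * K + 6) * T) ≤ 3 * n / M ^ 2 := by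
    have h2 : n / (2 * M ^ 2) * (6 - (K ^ 2 + 4 * K + 6) * T) ≤ n / (2 * M ^ 2) * 6 := by
      apply mul_le_mul_of_nonneg_left _ (by positivity)
      have : 0 ≤ ((K : ℝ) ^ 2 + 4 * K + 6) * T := by positivity
      linarith
    have h3 : n / (2 * M ^ 2) * 6 = 3 * n / M ^ 2 := by field_simp; ring
    linarith
  have e3 : n / (3 * M ^ 3) * (26 - (K ^ 3 + 6 * K ^ 2 + 18 * K + 26) * T)
      ≤ 26 * L / (3 * M ^ 2) := by
    have h2 : n / (3 * M ^ 3) * (26 - (K ^ 3 + 6 * K ^ 2 + 18 * K + 26) * T)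
        ≤ n / (3 * M ^ 3) * 26 := by
      apply mul_le_mul_of_nonneg_left _ (by positivity)
      have : 0 ≤ ((K : ℝ) ^ 3 + 6 * K ^ 2 + 18 * K + 26) * T := by positivity
      linarith
    have h3 : n / (3 * M ^ 3) * 26 ≤ (L * M) / (3 * M ^ 3) * 26 := by
      apply mul_le_mul_of_nonneg_right _ (by norm_num)
      exact div_le_div_of_nonneg_right hnLM (by positivity)
    have h4 : (L * M) / (3 * M ^ 3) * 26 = 26 * L / (3 * M ^ 2) := by field_simp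
    linarith
  have e4 : 2 * n / M ^ 4 * (150 - (K ^ 4 + 8 * K ^ 3 + 36 * K ^ 2 + 104 * K + 150) * T)
      ≤ 300 * L / M ^ 3 := by
    have h2 : 2 * n / M ^ 4 * (150 - (K ^ 4 + 8 * K ^ 3 + 36 * K ^ 2 + 104 * K + 150) * T)
        ≤ 2 * n / M ^ 4 * 150 := by
      apply mul_le_mul_of_nonneg_left _ (by positivity)
      have : 0 ≤ ((K : ℝ) ^ 4 + 8 * K ^ 3 + 36 * K ^ 2 + 104 * K + 150) * T := by positivity
      linarith
    have h3 : 2 * n / M ^ 4 * 150 ≤ 2 * (L * M) / M ^ 4 * 150 := by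
      apply mul_le_mul_of_nonneg_right _ (by norm_num)
      exact div_le_div_of_nonneg_right (by linarith) (by positivity)
    have h4 : 2 * (L * M) / M ^ 4 * 150 = 300 * L / M ^ 3 := by field_simp; ring
    linarith
  have e5 : 3 * n / M ^ 2 = 3 * L / M - (9 * L / 2 - 3 * d / 2) / M ^ 2 := by
    rw [hnval]; field_simp; ring
  have e6 : (3 * L - d) / M = 3 * L / M - d / M := by rw [sub_div]
  have e7 : d / M ≤ (2 + 1 / 10000) / M ^ 2 := by
    have h2 : d * M ≤ 2 + 1 / 10000 := by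
      have h3 : d * (2 * M - 3) < 4 := h1
      nlinarith
    rw [div_le_div_iff₀ hm0 (by positivity)]
    calc d * M ^ 2 = (d * M) * M := by ring
      _ ≤ (2 + 1 / 10000) * M := mul_le_mul_of_nonneg_right h2 hm0.le
  have e8 : 300 * L / M ^ 3 + 1 / M ^ 3 ≤ (1 / 10000) / M ^ 2 := by
    rw [← add_div, div_le_div_iff₀ (by positivity) (by positivity)]
    have h2 : (300 * L + 1) ≤ 1 / 10000 * M := by linarith
    calc (300 * L + 1) * M ^ 2 ≤ (1 / 10000 * M) * M ^ 2 :=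
          mul_le_mul_of_nonneg_right h2 (by positivity)
      _ = 1 / 10000 * M ^ 3 := by ring
  have e9 : (2 + 1 / 10000) / M ^ 2 + (1 / 10000) / M ^ 2 + 26 * L / (3 * M ^ 2)
      - (9 * L / 2 - 3 * d / 2) / M ^ 2 - (L ^ 2 / 8 * (47999 / 1000) / M ^ 2
      - (1 / 5000) / M ^ 2) < (201 / 100) / M ^ 2 := by
    have h2 : (2 + 1 / 10000) / M ^ 2 + (1 / 10000) / M ^ 2 + 26 * L / (3 * M ^ 2)
      - (9 * L / 2 - 3 * d / 2) / M ^ 2 - (L ^ 2 / 8 * (47999 / 1000) / M ^ 2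
      - (1 / 5000) / M ^ 2)
      = (2 + 1 / 10000 + 1 / 10000 + 26 * L / 3 - (9 * L / 2 - 3 * d / 2)
        - (L ^ 2 / 8 * (47999 / 1000) - 1 / 5000)) / M ^ 2 := by
      field_simp
    rw [h2]
    apply div_lt_div_of_pos_right _ (by positivity)
    have h3 : (0.6931471803 : ℝ) ^ 2 ≤ L ^ 2 := pow_le_pow_left₀ (by norm_num) hL1.le 2
    norm_num at h3 hL2 ⊢
    linarith
  linarith

end Pool.Agent.Lib_MP_780098_nt
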