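import Mathlib
import Pool.Agent.Lib_MP_780098_nt.OneSided
import Pool.Agent.Lib_MP_780098_nt.LogTwo
import Pool.Agent.Lib_MP_780098_nt.Sums

/-! Critical pairs with a sum close to `m^n`. -/

namespace Pool.Agent.Lib_MP_780098_nt

open Finset

lemma good_start : Good (Real.log 2 / 2) 3 1 2 1 := by
  have hL1 := Real.log_two_gt_d9
  have hL2 := Real.log_two_lt_d9
  refine ⟨by norm_num, by norm_num, by norm_num, ?_, ?_⟩
  · push_cast; linarith
  · push_cast; linarith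

lemma crit_left {m n : ℕ} (hm : 10 ^ 12 ≤ m) (h0 : Real.log 2 * (2 * m - 3) < 2 * n)
    (h1 : (2 * n - Real.log 2 * (2 * m - 3)) * (2 * m - 3) < 4) :
    (1 / 2 : ℝ) < (1 - 1 / (m : ℝ)) ^ n := by
  have hmR : (10 ^ 12 : ℝ) ≤ m := by exact_mod_cast hm
  clear hm
  have hL1 := Real.log_two_gt_d9
  have hL2 := Real.log_two_lt_d9
  set L : ℝ := Real.log 2 with hL
  set M : ℝ := (m : ℝ) with hM
  clear_value M
  have hM0 : 0 < M := lt_of_lt_of_le (by norm_num) hmR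
  have hx0 : 0 ≤ 1 / M := by positivity
  have hxh : 1 / M ≤ 1 / 2 := by
    rw [div_le_div_iff₀ hM0 (by norm_num)]; linarith
  have hlog := log_one_sub_ge hx0 hxh
  have hpos : (0 : ℝ) < 1 - 1 / M := by linarith
  have hn0 : (0 : ℝ) ≤ n := Nat.cast_nonneg n
  have h2 : (1 / 2 : ℝ) = Real.exp (-L) := by
    rw [Real.exp_neg, hL, Real.exp_log (by norm_num), one_div]
  have h3 : (1 - 1 / M) ^ n = Real.exp (n * Real.log (1 - 1 / M)) := by
    rw [mul_comm, Real.exp_mul, Real.exp_log hpos, Real.rpow_natCast]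
  rw [h2, h3]
  apply Real.exp_lt_exp.mpr
  have h4 : 1 / M + (1 / M) ^ 2 / 2 + (1 / M) ^ 3 / 3 + 2 * (1 / M) ^ 4 ≤ (M + 1) / M ^ 2 := by
    rw [← sub_nonneg]
    have h5 : (M + 1) / M ^ 2 - (1 / M + (1 / M) ^ 2 / 2 + (1 / M) ^ 3 / 3 + 2 * (1 / M) ^ 4)
        = (M ^ 2 / 2 - M / 3 - 2) / M ^ 4 := by
      field_simp
      ring
    rw [h5]
    apply div_nonneg _ (by positivity)
    nlinarith
  have h6 : (n : ℝ) * ((M + 1) / M ^ 2) < L := by
    have h7 : (2 * (n : ℝ) - L * (2 * M - 3)) * M ≤ 3 := by nlinarith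
    have h8 : (n : ℝ) * (M + 1) < L * M ^ 2 := by nlinarith
    rw [mul_div_assoc', div_lt_iff₀ (by positivity)]
    exact h8
  have h9 := mul_le_mul_of_nonneg_left hlog hn0
  have h10 := mul_le_mul_of_nonneg_left h4 hn0
  linarith

lemma crit_right {m n : ℕ} (hm : 3 ≤ m) (h0 : Real.log 2 * (2 * m - 3) < 2 * n) :
    (1 - 1 / ((m : ℝ) - 1)) ^ n < 1 / 2 := by
  have hmR : (3 : ℝ) ≤ m := by exact_mod_cast hm
  set M : ℝ := (m : ℝ) with hM
  have hpos : (0 : ℝ) < 1 - 1 / (M - 1) := by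
    rw [sub_pos, div_lt_one (by linarith)]; linarith
  have hx : 0 ≤ 1 / (M - 2) := by
    apply div_nonneg (by norm_num); linarith
  have hlog := Real.le_log_one_add_of_nonneg hx
  have h1 : 2 * (1 / (M - 2)) / (1 / (M - 2) + 2) = 2 / (2 * M - 3) := by
    have h2 : M - 2 ≠ 0 := by linarith
    have h3 : 2 * M - 3 ≠ 0 := by linarith
    have h4 : 1 / (M - 2) + 2 = (2 * M - 3) / (M - 2) := by field_simp; ring
    rw [h4]
    field_simp
  rw [h1] at hlog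
  have h5 : 1 + 1 / (M - 2) = (1 - 1 / (M - 1))⁻¹ := by
    have h2 : M - 2 ≠ 0 := by linarith
    have h3 : M - 1 ≠ 0 := by linarith
    have h4 : 1 - 1 / (M - 1) = (M - 2) / (M - 1) := by field_simp; ring
    rw [h4, inv_div]
    field_simp
    ring
  rw [h5, Real.log_inv] at hlog
  have h6 : (1 - 1 / (M - 1)) ^ n = Real.exp (n * Real.log (1 - 1 / (M - 1))) := by
    rw [mul_comm, Real.exp_mul, Real.exp_log hpos, Real.rpow_natCast]
  have h7 : (1 / 2 : ℝ) = Real.exp (-Real.log 2) := by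
    rw [Real.exp_neg, Real.exp_log (by norm_num), one_div]
  rw [h6, h7]
  apply Real.exp_lt_exp.mpr
  have hn0 : (0 : ℝ) ≤ n := Nat.cast_nonneg n
  have h8 := mul_le_mul_of_nonneg_left hlog hn0
  have h9 : Real.log 2 < n * (2 / (2 * M - 3)) := by
    rw [mul_div_assoc', lt_div_iff₀ (by linarith)]
    linarith
  linarith

lemma sum_reflect' {m n : ℕ} (hm : 1 ≤ m) :
    (∑ k ∈ Ico 1 m, (1 - (k : ℝ) / m) ^ n) * (m : ℝ) ^ n = ∑ k ∈ Ico 1 m, (k : ℝ) ^ n := by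
  rw [sum_mul]
  have hmR : (m : ℝ) ≠ 0 := by
    have : 0 < m := hm
    exact_mod_cast this.ne'
  have h1 : ∀ k ∈ Ico 1 m, (1 - (k : ℝ) / m) ^ n * (m : ℝ) ^ n = ((m - k : ℕ) : ℝ) ^ n := by
    intro k hk
    rw [mem_Ico] at hk
    rw [← mul_pow, Nat.cast_sub hk.2.le]
    congr 1
    field_simp
  rw [sum_congr rfl h1]
  refine sum_nbij' (fun k => m - k) (fun k => m - k) ?_ ?_ ?_ ?_ ?_
  · intro k hk; rw [mem_Ico] at *; omega
  · intro k hk; rw [mem_Ico] at *; omega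
  · intro k hk; rw [mem_Ico] at hk; omega
  · intro k hk; rw [mem_Ico] at hk; omega
  · intro k _; rfl

theorem near (N : ℕ) : ∃ m n : ℕ, N < m ∧ 3 ≤ m ∧ 1 ≤ n ∧ (1 / 2 : ℝ) < (1 - 1 / (m : ℝ)) ^ n ∧
    (1 - 1 / ((m : ℝ) - 1)) ^ n < 1 / 2 ∧
    (1 - 2.01 / (m : ℝ) ^ 2) * (m : ℝ) ^ n < ∑ k ∈ Ico 1 m, (k : ℝ) ^ n := by
  obtain ⟨p, n, hp, hodd, h1, h2⟩ := exists_odd_above irrational_half_log_two good_start
    (2 * (N + 10 ^ 12))
  have hp0 : 0 < p := lt_of_le_of_lt (by positivity) hp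
  obtain ⟨t, ht⟩ := hodd
  obtain ⟨P, hP⟩ : ∃ P : ℕ, t = P := ⟨t.toNat, by omega⟩
  have hL := Real.log_two_gt_d9
  have hpR : (0 : ℝ) < p := by exact_mod_cast hp0
  have hn0 : 0 < n := by
    have : (0 : ℝ) < n := by nlinarith
    exact_mod_cast this
  obtain ⟨n', hn'⟩ : ∃ n' : ℕ, n = n' := ⟨n.toNat, by omega⟩
  subst hn' hP
  have hmp : ((p : ℤ) : ℝ) = 2 * ((P + 2 : ℕ) : ℝ) - 3 := by
    rw [ht]; push_cast; ring
  have hmbig : 10 ^ 12 ≤ P + 2 := by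
    have : ((2 * (N + 10 ^ 12) : ℕ) : ℤ) < 2 * (P : ℤ) + 1 := by rw [← ht]; exact hp
    push_cast at this
    omega
  have hNm : N < P + 2 := by
    have : ((2 * (N + 10 ^ 12) : ℕ) : ℤ) < 2 * (P : ℤ) + 1 := by rw [← ht]; exact hp
    push_cast at this
    omega
  rw [hmp] at h1 h2
  have e0 : Real.log 2 * (2 * ((P + 2 : ℕ) : ℝ) - 3) < 2 * (n' : ℝ) := by
    have : ((n' : ℤ) : ℝ) = (n' : ℝ) := by norm_cast
    rw [this] at h1
    linarith
  have e1 : (2 * (n' : ℝ) - Real.log 2 * (2 * ((P + 2 : ℕ) : ℝ) - 3))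
      * (2 * ((P + 2 : ℕ) : ℝ) - 3) < 4 := by
    have : ((n' : ℤ) : ℝ) = (n' : ℝ) := by norm_cast
    rw [this] at h2
    linarith
  have hsum := sum_gt hmbig e0 e1
  have hm1 : 1 ≤ P + 2 := by omega
  refine ⟨P + 2, n', hNm, le_trans (by norm_num) hmbig, by exact_mod_cast hn0,
    crit_left hmbig e0 e1, crit_right (le_trans (by norm_num) hmbig) e0, ?_⟩
  rw [← sum_reflect' hm1]
  have hpw : (0 : ℝ) < ((P + 2 : ℕ) : ℝ) ^ n' := by positivity
  apply mul_lt_mul_of_pos_right _ hpw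
  have h201 : (2.01 : ℝ) = 201 / 100 := by norm_num
  rw [h201]
  exact hsum

end Pool.Agent.Lib_MP_780098_nt
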